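import Pool.Agent.Helper79.DM.Defs
import Pool.Agent.SST.SUnit

/-!
# Block B: the exponential equation and distances of powers in characteristic `p`
-/

set_option autoImplicit false

namespace Pool.Agent.Helper79.DM

open Polynomial

lemma expo_cross (p d : ℕ) (hp : p.Prime) (hd : 2 ≤ d) (hpd : ∀ k, d ≠ p ^ k) (r1 r2 n1 n2 : ℕ)
    (h : n1 < n2) : p ^ r1 * d ^ n2 ≠ p ^ r2 * d ^ n1 := by
  intro heq
  obtain ⟨t, rfl⟩ : ∃ t, n2 = n1 + (t + 1) := ⟨n2 - n1 - 1, by omega⟩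
  have hdn : 0 < d ^ n1 := Nat.pow_pos (by omega)
  have h1 : p ^ r1 * d ^ (t + 1) = p ^ r2 := by
    apply Nat.eq_of_mul_eq_mul_right hdn
    rw [← heq, pow_add]
    ring
  have h2 : d ∣ p ^ r2 := by
    rw [← h1]
    exact Dvd.dvd.mul_left (dvd_pow_self d (by omega)) _
  obtain ⟨k, -, hk⟩ := (Nat.dvd_prime_pow hp).1 h2
  exact hpd k hk

open Pool.Agent.SST in
/-- the rational form of the exponential equation -/
lemma expo_rat (p d : ℕ) (hp : p.Prime) (hd : 2 ≤ d) (a b : ℚ) (ha : a ≠ 0) (hb : b ≠ 0)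
    (S : Set ℕ) (r : ℕ → ℕ) (hS : ∀ n ∈ S, a * (p : ℚ) ^ r n - b * (d : ℚ) ^ n = 1) :
    S.Finite := by
  have hp0 : (p : ℚ) ≠ 0 := by exact_mod_cast hp.ne_zero
  have hd0 : (d : ℚ) ≠ 0 := by
    have : d ≠ 0 := by omega
    exact_mod_cast this
  obtain ⟨S', -, -, hU⟩ := SUnitThm.exists_extend (α := Fin 4) ∅ (by simp)
    ![a, b, (p : ℚ), (d : ℚ)] (by
      intro i
      fin_cases i <;> simp <;> first | exact ha | exact hb | (exact_mod_cast hp.ne_zero) | omega)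
  have hUa : SUnit S' a := hU 0
  have hUb : SUnit S' b := hU 1
  have hUp : SUnit S' (p : ℚ) := hU 2
  have hUd : SUnit S' (d : ℚ) := hU 3
  obtain ⟨F, hF, hF'⟩ := sunit_finite (Fin 3) S'
  have hsub : S ⊆ {n : ℕ | b * (d : ℚ) ^ n ∈ F} := by
    intro n hn
    have hx0 : a * (p : ℚ) ^ r n ≠ 0 := mul_ne_zero ha (pow_ne_zero _ hp0)
    have hx1 : b * (d : ℚ) ^ n ≠ 0 := mul_ne_zero hb (pow_ne_zero _ hd0)
    set x : Fin 3 → ℚ := ![a * (p : ℚ) ^ r n, -(b * (d : ℚ) ^ n), -1] with hx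
    have hne : ∀ i, x i ≠ 0 := by
      intro i
      fin_cases i
      · exact hx0
      · exact neg_ne_zero.2 hx1
      · show (-1 : ℚ) ≠ 0
        norm_num
    have hsum : ∑ i, x i = 0 := by
      rw [Fin.sum_univ_three]
      show a * (p : ℚ) ^ r n + -(b * (d : ℚ) ^ n) + -1 = 0
      have := hS n hn
      linarith
    have h1 := hF' x (by
      intro i
      fin_cases i
      · exact hUa.mul (hUp.pow _)
      · exact (hUb.mul (hUd.pow _)).neg
      · exact (SUnit.one S').neg) hsum (by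
      intro T hT hTne hz
      have hcard : T.card = 1 ∨ Tᶜ.card = 1 := by
        have h1 : 0 < T.card := Finset.card_pos.2 hT
        have h2 : T.card < 3 := by
          have := (Finset.card_lt_iff_ne_univ T).2 hTne
          simpa using this
        rw [Finset.card_compl, Fintype.card_fin]
        omega
      rcases hcard with h | h
      · obtain ⟨i, hi⟩ := Finset.card_eq_one.1 h
        rw [hi, Finset.sum_singleton] at hz
        exact hne i hz
      · obtain ⟨i, hi⟩ := Finset.card_eq_one.1 h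
        have h3 := Finset.sum_add_sum_compl T x
        rw [hsum, hz, hi, Finset.sum_singleton, zero_add] at h3
        exact hne i h3) 1 2
    show b * (d : ℚ) ^ n ∈ F
    have h2 : x 1 / x 2 = b * (d : ℚ) ^ n := by
      show -(b * (d : ℚ) ^ n) / (-1) = _
      rw [div_neg, div_one, neg_neg]
    rw [h2] at h1
    exact h1
  refine Set.Finite.subset ?_ hsub
  refine Set.Finite.preimage (f := fun n : ℕ => b * (d : ℚ) ^ n) ?_ hF
  intro n _ m _ hnm
  have h1 : (d : ℚ) ^ n = (d : ℚ) ^ m := mul_left_cancel₀ hb hnm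
  have h2 : d ^ n = d ^ m := by exact_mod_cast h1
  exact Nat.pow_right_injective hd h2

/-- `A p^r = B d^n + C` has only finitely many solutions (from `sunit_finite`). -/
theorem expo_finite (p d : ℕ) (hp : p.Prime) (hd : 2 ≤ d) (hpd : ∀ k, d ≠ p ^ k) (A B C : ℝ)
    (hA : 0 < A) (hB : 0 < B) (S : Set ℕ) (r : ℕ → ℕ)
    (hS : ∀ n ∈ S, A * (p : ℝ) ^ r n = B * (d : ℝ) ^ n + C) : S.Finite := by
  by_contra hinf
  have hinf : S.Infinite := hinf
  obtain ⟨n1, hn1⟩ := hinf.nonempty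
  obtain ⟨n2, hn2, hlt⟩ := hinf.exists_gt n1
  have e1 := hS n1 hn1
  have e2 := hS n2 hn2
  have hcr := expo_cross p d hp hd hpd (r n1) (r n2) n1 n2 hlt
  have hcrR : (p : ℝ) ^ r n1 * (d : ℝ) ^ n2 - (p : ℝ) ^ r n2 * (d : ℝ) ^ n1 ≠ 0 := by
    intro h
    apply hcr
    have : (p : ℝ) ^ r n1 * (d : ℝ) ^ n2 = (p : ℝ) ^ r n2 * (d : ℝ) ^ n1 := by linarith
    exact_mod_cast this
  by_cases hC : C = 0
  · rw [hC, add_zero] at e1 e2
    apply hcrR
    have h1 : A * ((p : ℝ) ^ r n1 * (d : ℝ) ^ n2 - (p : ℝ) ^ r n2 * (d : ℝ) ^ n1) = 0 := by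
      have : A * ((p : ℝ) ^ r n1 * (d : ℝ) ^ n2 - (p : ℝ) ^ r n2 * (d : ℝ) ^ n1) =
          (A * (p : ℝ) ^ r n1) * (d : ℝ) ^ n2 - (A * (p : ℝ) ^ r n2) * (d : ℝ) ^ n1 := by ring
      rw [this, e1, e2]
      ring
    exact (mul_eq_zero.1 h1).resolve_left hA.ne'
  · set Dt : ℚ := (p : ℚ) ^ r n1 * (d : ℚ) ^ n2 - (p : ℚ) ^ r n2 * (d : ℚ) ^ n1 with hDt
    have hDtR : (Dt : ℝ) = (p : ℝ) ^ r n1 * (d : ℝ) ^ n2 - (p : ℝ) ^ r n2 * (d : ℝ) ^ n1 := by
      rw [hDt]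
      push_cast
      rfl
    have hDt0 : (Dt : ℝ) ≠ 0 := by rw [hDtR]; exact hcrR
    set a : ℚ := ((d : ℚ) ^ n2 - (d : ℚ) ^ n1) / Dt with ha
    set b : ℚ := ((p : ℚ) ^ r n2 - (p : ℚ) ^ r n1) / Dt with hb
    have haR : (a : ℝ) = A / C := by
      rw [ha]
      push_cast
      rw [div_eq_div_iff hDt0 hC, hDtR]
      have : A * ((p : ℝ) ^ r n1 * (d : ℝ) ^ n2 - (p : ℝ) ^ r n2 * (d : ℝ) ^ n1) =
          (A * (p : ℝ) ^ r n1) * (d : ℝ) ^ n2 - (A * (p : ℝ) ^ r n2) * (d : ℝ) ^ n1 := by ring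
      rw [this, e1, e2]
      ring
    have hbR : (b : ℝ) = B / C := by
      rw [hb]
      push_cast
      rw [div_eq_div_iff hDt0 hC, hDtR]
      have h1 : C = A * (p : ℝ) ^ r n1 - B * (d : ℝ) ^ n1 := by linarith
      have h2 : C = A * (p : ℝ) ^ r n2 - B * (d : ℝ) ^ n2 := by linarith
      have : ((p : ℝ) ^ r n2 - (p : ℝ) ^ r n1) * C =
          (p : ℝ) ^ r n2 * C - (p : ℝ) ^ r n1 * C := by ring
      rw [this]
      nth_rewrite 1 [h1]
      rw [h2]
      ring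
    have ha0 : a ≠ 0 := by
      intro h
      rw [h] at haR
      push_cast at haR
      have := div_ne_zero hA.ne' hC
      exact this haR.symm
    have hb0 : b ≠ 0 := by
      intro h
      rw [h] at hbR
      push_cast at hbR
      have := div_ne_zero hB.ne' hC
      exact this hbR.symm
    refine hinf (expo_rat p d hp hd a b ha0 hb0 S r ?_)
    intro n hn
    have e := hS n hn
    have h1 : (a : ℝ) * (p : ℝ) ^ r n - (b : ℝ) * (d : ℝ) ^ n = 1 := by
      rw [haR, hbR]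
      field_simp
      linarith
    exact_mod_cast h1

section

variable {L : Type*} [NormedField L] [IsUltrametricDist L]


lemma norm_nat_unit (p : ℕ) [Fact p.Prime] [CharP L p] (M : ℕ) (hM : ¬ p ∣ M) :
    ‖(M : L)‖ = 1 := by
  have hp : p.Prime := Fact.out
  have hcop : Nat.Coprime M p := ((Nat.Prime.coprime_iff_not_dvd hp).2 hM).symm
  obtain ⟨M', hM'⟩ := Nat.exists_mul_mod_eq_one_of_coprime hcop hp.one_lt
  have h1 : ((M * M' : ℕ) : L) = 1 := by
    have h2 : ((M * M' : ℕ) : L) = ((1 : ℕ) : L) := by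
      rw [CharP.natCast_eq_natCast L p]
      show M * M' % p = 1 % p
      rw [hM'.2, Nat.mod_eq_of_lt hp.one_lt]
    rw [h2, Nat.cast_one]
  have h3 : ‖(M : L)‖ * ‖(M' : L)‖ = 1 := by
    rw [← norm_mul, ← Nat.cast_mul, h1, norm_one]
  have h4 : ‖(M : L)‖ ≤ 1 := IsUltrametricDist.norm_natCast_le_one L M
  have h5 : ‖(M' : L)‖ ≤ 1 := IsUltrametricDist.norm_natCast_le_one L M'
  have h6 := norm_nonneg (M : L)
  nlinarith

/-- in an ultrametric field, `‖a - b‖ < ‖b‖` implies `‖a‖ = ‖b‖` -/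
lemma norm_eq_of_close {a b : L} (h : ‖a - b‖ < ‖b‖) : ‖a‖ = ‖b‖ := by
  have h1 : a = (a - b) + b := by ring
  rw [h1]
  rw [IsUltrametricDist.norm_add_eq_max_of_norm_ne_norm (ne_of_lt h)]
  exact max_eq_right h.le

lemma norm_sub_le_max' (a b : L) : ‖a - b‖ ≤ max ‖a‖ ‖b‖ := by
  rw [sub_eq_add_neg, ← norm_neg b]
  exact IsUltrametricDist.norm_add_le_max _ _

lemma close_one_pow {v : L} (hv : ‖v - 1‖ < 1) (i : ℕ) : ‖v ^ i - 1‖ ≤ ‖v - 1‖ := by
  have hv1 : ‖v‖ = 1 := by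
    have := norm_eq_of_close (a := v) (b := 1) (by rw [norm_one]; exact hv)
    rw [this, norm_one]
  induction i with
  | zero => simp
  | succ i ih =>
    have h1 : v ^ (i + 1) - 1 = (v ^ i - 1) * v + (v - 1) := by ring
    rw [h1]
    refine (IsUltrametricDist.norm_add_le_max _ _).trans ?_
    rw [norm_mul, hv1, mul_one]
    exact max_le ih le_rfl

lemma close_pow_prime (p : ℕ) [Fact p.Prime] [CharP L p] {v : L} (hv : ‖v - 1‖ < 1) (M : ℕ)
    (hM : ¬ p ∣ M) : ‖v ^ M - 1‖ = ‖v - 1‖ := by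
  rw [← geom_sum_mul, norm_mul]
  have h1 : ‖∑ i ∈ Finset.range M, v ^ i‖ = 1 := by
    have h2 : (∑ i ∈ Finset.range M, v ^ i) - (M : L) = ∑ i ∈ Finset.range M, (v ^ i - 1) := by
      rw [Finset.sum_sub_distrib]
      simp
    have h3 : ‖∑ i ∈ Finset.range M, (v ^ i - 1)‖ ≤ ‖v - 1‖ :=
      IsUltrametricDist.norm_sum_le_of_forall_le_of_nonneg (norm_nonneg _)
        (fun i _ => close_one_pow hv i)
    have h4 := norm_nat_unit (L := L) p M hM
    rw [norm_eq_of_close (b := (M : L)), h4]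
    rw [h2, h4]
    exact lt_of_le_of_lt h3 hv
  rw [h1, one_mul]

lemma close_pow (p : ℕ) [Fact p.Prime] [CharP L p] {v : L} (hv : ‖v - 1‖ < 1) (M : ℕ)
    (hM : 0 < M) : ∃ s : ℕ, ‖v ^ M - 1‖ = ‖v - 1‖ ^ p ^ s := by
  have hp : p.Prime := Fact.out
  obtain ⟨s, M', hM', hMs⟩ := Nat.exists_eq_pow_mul_and_not_dvd hM.ne' p hp.ne_one
  refine ⟨s, ?_⟩
  have h1 : v ^ M - 1 = (v ^ M' - 1) ^ p ^ s := by
    rw [sub_pow_char_pow, one_pow, ← pow_mul, hMs]
    congr 2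
    ring
  rw [h1, norm_pow, close_pow_prime p hv M' hM']

/-- For an element `u` of norm one which is not a root of unity, in characteristic `p`: if
`u ^ d ^ n` converges to `w` along the infinite set `S` then (apart from one `n`) the distance is
a power `e ^ p ^ r` of a fixed number `e < 1`. -/
theorem power_dist (p d : ℕ) [Fact p.Prime] (hd : 2 ≤ d) {L : Type*}
    [NormedField L] [IsUltrametricDist L] [CharP L p] (u w : L) (hu : ‖u‖ = 1)
    (hr : ∀ N : ℕ, 0 < N → u ^ N ≠ 1) (S : Set ℕ) (hS : S.Infinite)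
    (hw : ∀ ε : ℝ, 0 < ε → ∃ n₀, ∀ n ∈ S, n₀ ≤ n → ‖u ^ d ^ n - w‖ < ε) :
    ∃ (e : ℝ) (r : ℕ → ℕ) (n₀ : ℕ), 0 < e ∧ e < 1 ∧ ∀ n ∈ S, n₀ ≤ n →
      ‖u ^ d ^ n - w‖ = e ^ p ^ r n := by
  classical
  have hp : p.Prime := Fact.out
  -- differences of powers
  have hdiff : ∀ n m : ℕ, n < m → d ^ n < d ^ m := fun n m h => Nat.pow_lt_pow_right (by omega) h
  have hfac : ∀ n m : ℕ, n < m → ‖u ^ d ^ m - u ^ d ^ n‖ = ‖u ^ (d ^ m - d ^ n) - 1‖ := by
    intro n m h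
    have h1 : u ^ d ^ m = u ^ d ^ n * u ^ (d ^ m - d ^ n) := by
      rw [← pow_add]
      congr 1
      have := hdiff n m h
      omega
    rw [h1]
    have h2 : u ^ d ^ n * u ^ (d ^ m - d ^ n) - u ^ d ^ n =
        u ^ d ^ n * (u ^ (d ^ m - d ^ n) - 1) := by ring
    rw [h2, norm_mul, norm_pow, hu, one_pow, one_mul]
  obtain ⟨n0, hn0⟩ := hw 1 one_pos
  have hclose : ∀ n ∈ S, n0 ≤ n → ∀ m ∈ S, n < m → ‖u ^ (d ^ m - d ^ n) - 1‖ < 1 := by
    intro n hn hn' m hm hnm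
    rw [← hfac n m hnm]
    have h1 : u ^ d ^ m - u ^ d ^ n = (u ^ d ^ m - w) - (u ^ d ^ n - w) := by ring
    rw [h1]
    refine lt_of_le_of_lt (norm_sub_le_max' _ _) ?_
    exact max_lt (hn0 m hm (by omega)) (hn0 n hn hn')
  -- the order of the residue class of `u`
  have hex : ∃ N : ℕ, 0 < N ∧ ‖u ^ N - 1‖ < 1 := by
    obtain ⟨n, hn, hn'⟩ := hS.exists_gt n0
    obtain ⟨m, hm, hm'⟩ := hS.exists_gt n
    exact ⟨d ^ m - d ^ n, by have := hdiff n m hm'; omega, hclose n hn hn'.le m hm hm'⟩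
  set k := Nat.find hex with hk
  obtain ⟨hk0, hk1⟩ := Nat.find_spec hex
  rw [← hk] at hk0 hk1
  have hdvd : ∀ N : ℕ, ‖u ^ N - 1‖ < 1 → k ∣ N := by
    intro N hN
    by_contra hcon
    have hr0 : 0 < N % k := Nat.pos_of_ne_zero (fun h => hcon (Nat.dvd_of_mod_eq_zero h))
    have hlt : N % k < k := Nat.mod_lt _ hk0
    have hmin := Nat.find_min hex hlt
    apply hmin
    refine ⟨hr0, ?_⟩
    have h1 : u ^ N = (u ^ k) ^ (N / k) * u ^ (N % k) := by
      rw [← pow_mul, ← pow_add, Nat.div_add_mod]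
    have h2 : ‖(u ^ k) ^ (N / k) - 1‖ < 1 := lt_of_le_of_lt (close_one_pow hk1 _) hk1
    have h3 : u ^ (N % k) - 1 = (u ^ N - 1) - ((u ^ k) ^ (N / k) - 1) * u ^ (N % k) := by
      rw [h1]
      ring
    rw [h3]
    refine lt_of_le_of_lt (norm_sub_le_max' _ _) ?_
    rw [norm_mul, norm_pow u, hu, one_pow, mul_one]
    exact max_lt hN h2
  set e : ℝ := ‖u ^ k - 1‖ with he
  have he0 : 0 < e := norm_pos_iff.2 (sub_ne_zero.2 (hr k hk0))
  -- at most one n with u ^ d ^ n = w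
  have hex1 : ∃ n1, ∀ n ∈ S, n1 ≤ n → u ^ d ^ n ≠ w := by
    by_cases h : ∃ n, u ^ d ^ n = w
    · obtain ⟨n, hn⟩ := h
      refine ⟨n + 1, ?_⟩
      intro m _ hm hmw
      have hnm : n < m := by omega
      have h1 := hfac n m hnm
      rw [hn, hmw, sub_self, norm_zero] at h1
      have h2 : u ^ (d ^ m - d ^ n) - 1 = 0 := norm_eq_zero.1 h1.symm
      exact hr _ (by have := hdiff n m hnm; omega) (sub_eq_zero.1 h2)
    · push Not at h
      exact ⟨0, fun n _ _ => h n⟩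
  obtain ⟨n1, hn1⟩ := hex1
  have key : ∀ n ∈ S, max n0 n1 ≤ n → ∃ s : ℕ, ‖u ^ d ^ n - w‖ = e ^ p ^ s := by
    intro n hn hn'
    have hpos : 0 < ‖u ^ d ^ n - w‖ :=
      norm_pos_iff.2 (sub_ne_zero.2 (hn1 n hn (le_trans (le_max_right _ _) hn')))
    obtain ⟨n2, hn2⟩ := hw _ hpos
    obtain ⟨m, hm, hm'⟩ := hS.exists_gt (max n n2)
    have hnm : n < m := lt_of_le_of_lt (le_max_left _ _) hm'
    have h1 := hn2 m hm (le_trans (le_max_right n n2) hm'.le)
    have h2 : ‖u ^ d ^ m - u ^ d ^ n‖ = ‖u ^ d ^ n - w‖ := by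
      rw [norm_sub_rev]
      apply norm_eq_of_close
      have : u ^ d ^ n - u ^ d ^ m - (u ^ d ^ n - w) = -(u ^ d ^ m - w) := by ring
      rw [this, norm_neg]
      exact h1
    have h3 := hclose n hn (le_trans (le_max_left _ _) hn') m hm hnm
    obtain ⟨M, hM⟩ := hdvd _ h3
    have hMpos : 0 < M := by
      rcases Nat.eq_zero_or_pos M with h | h
      · rw [h, mul_zero] at hM
        have := hdiff n m hnm
        omega
      · exact h
    obtain ⟨s, hs⟩ := close_pow p hk1 M hMpos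
    refine ⟨s, ?_⟩
    rw [← h2, hfac n m hnm, hM, pow_mul]
    exact hs
  choose! r hr' using key
  exact ⟨e, r, max n0 n1, he0, hk1, hr'⟩

end

end Pool.Agent.Helper79.DM
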